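import Pool.Agent.X17.Eul.Main

/-!
# Strong synchronisation of descent counts on even and odd permutations
-/

set_option autoImplicit false

open Finset Equiv

namespace Pool.Agent.Results.MP_ab4491_co.StrongSyncDescents

open Pool.Agent.X17.Eul

/-- For every positive `n` the sequences of the numbers of the even and of the odd permutations of
`n` letters with `k` descents, `0 ≤ k ≤ n - 1`, are strongly synchronised. -/
theorem result (n : ℕ) (hn : 1 ≤ n) : StronglySynchronised (n - 1) (Ap n) (Am n) :=
  (main n hn).1

end Pool.Agent.Results.MP_ab4491_co.StrongSyncDescents
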